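import Pool.Agent.helper69.LN.TSpec
import Pool.Agent.helper38.Neg.Walk

set_option autoImplicit false

namespace Pool.Agent.LN

open Finset Pool.Agent.helper38.Neg Pool.Agent.helper55.NT

theorem TFP : TFP_stmt := by
  intro n s u r C hC x _ hx
  obtain ⟨S, hS, hSv⟩ := hC
  let Φ : List Bool → (S → Bool) := fun v j => (v[(j : ℕ)]?).getD false
  have hinj : Set.InjOn Φ (Set.range fun i => C.notVals (x i)) := by
    rintro _ ⟨i, rfl⟩ _ ⟨j, rfl⟩ h
    dsimp only at h ⊢
    apply List.ext_getElem?
    intro k
    by_cases hk : k ∈ S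
    · have h1 : ((C.notVals (x i))[k]?).getD false = ((C.notVals (x j))[k]?).getD false :=
        congrFun h ⟨k, hk⟩
      by_cases hl : k < C.notCount
      · rw [List.getElem?_eq_getElem (by rw [notVals_length]; exact hl),
          List.getElem?_eq_getElem (by rw [notVals_length]; exact hl)] at h1 ⊢
        exact congrArg some h1
      · rw [List.getElem?_eq_none (by rw [notVals_length]; omega),
          List.getElem?_eq_none (by rw [notVals_length]; omega)]
    · exact hSv _ _ (hx i j) k hk
  rw [← hinj.encard_image]
  calc (Φ '' Set.range fun i => C.notVals (x i)).encard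
      ≤ (Set.univ : Set (S → Bool)).encard := Set.encard_le_encard (Set.subset_univ _)
    _ = ((2 ^ S.card : ℕ) : ℕ∞) := by
        rw [Set.encard_univ, ENat.card_eq_coe_fintype_card, Fintype.card_fun, Fintype.card_bool,
          Fintype.card_coe]
    _ ≤ ((2 ^ r : ℕ) : ℕ∞) := by
        exact_mod_cast Nat.pow_le_pow_right (by norm_num) hS

end Pool.Agent.LN
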